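import Pool.Agent.H18.KC.Stmts

/-!
# Part C of the KLS proof, module SYM: symmetrisation of a nearly symmetric vector
-/

set_option autoImplicit false

open Finset

namespace Pool.Agent.H41.KC.SYM

open Pool.Agent.H18.KC

variable {α V : Type} [DecidableEq α] [NormedAddCommGroup V] [InnerProductSpace ℝ V]

/-- conjugation -/
theorem conj_swap (ρ : Equiv.Perm α →* (V →ₗ[ℝ] V)) (σ : Equiv.Perm α) (y z : α) (v : V) :
    ρ σ (ρ (Equiv.swap y z) v) = ρ (Equiv.swap (σ y) (σ z)) (ρ σ v) := by
  have h : σ * Equiv.swap y z = Equiv.swap (σ y) (σ z) * σ := Equiv.mul_swap_eq_swap_mul σ y z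
  have h2 := congrArg (fun τ => ρ τ v) h
  simpa only [map_mul, Module.End.mul_apply] using h2

theorem step (hUIN : UINStmt) (ρ : Equiv.Perm α →* (V →ₗ[ℝ] V)) (hρ : ∀ σ v, ‖ρ σ v‖ = ‖v‖)
    (x : ℕ → α) (n : ℕ) (hx : ∀ i j, i < n → j < n → x i = x j → i = j) (v : V) (j : ℕ) :
    j < n → ∃ v' : V, Inv ρ x 0 (j + 1) v' ∧
      (∀ σ : Equiv.Perm α, (∀ i, i < n → σ (x i) = x i) → ρ σ v = v → ρ σ v' = v') ∧
      ‖v - v'‖ ≤ 3 ^ (j + 1) * ∑ i ∈ range j, ‖v - ρ (Equiv.swap (x i) (x (i + 1))) v‖ := by
  induction j with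
  | zero =>
    intro _
    refine ⟨v, ?_, fun σ _ h => h, ?_⟩
    · intro i j _ hi _ hj
      have h1 : i = 0 := by omega
      have h2 : j = 0 := by omega
      rw [h1, h2, Equiv.swap_self]
      show ρ 1 v = v
      rw [map_one]
      rfl
    · simp
  | succ j ih =>
    intro hj
    obtain ⟨w, hw1, hw2, hw3⟩ := ih (by omega)
    have hself : ∀ y : α, ∀ u : V, ρ (Equiv.swap y y) u = u := by
      intro y u
      rw [Equiv.swap_self]
      show ρ 1 u = u
      rw [map_one]
      rfl
    have h1 := hUIN α V ρ x (j + 1) 1 w (fun a b ha hb => hx a b (by omega) (by omega)) le_rfl hw1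
      (by
        intro a b ha1 ha2 hb1 hb2
        rw [show a = b by omega]
        exact hself _ _)
    have hpos : (0 : ℝ) < (j : ℝ) + 2 := by positivity
    refine ⟨((j : ℝ) + 2)⁻¹ • Up ρ x (j + 1) w, ?_, ?_, ?_⟩
    · intro a b ha1 ha2 hb1 hb2
      rw [map_smul, h1.1 a b ha1 ha2 hb1 hb2]
    · intro σ hσ hσv
      rw [map_smul]
      congr 1
      have h2 := hw2 σ hσ hσv
      unfold Up
      rw [map_add, map_sum, h2]
      congr 1
      refine Finset.sum_congr rfl fun i hi => ?_
      rw [mem_range] at hi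
      rw [conj_swap, hσ i (by omega), hσ (j + 1) hj, h2]
    · -- the bound
      set e := ‖v - w‖ with he
      set d := ‖v - ρ (Equiv.swap (x j) (x (j + 1))) v‖ with hd
      have hmain : ∀ i ∈ range (j + 1), ‖v - ρ (Equiv.swap (x i) (x (j + 1))) w‖ ≤ 3 * e + d := by
        intro i hi
        rw [mem_range] at hi
        set s : Equiv.Perm α := Equiv.swap (x i) (x j) with hs
        have hsw : ρ s w = w := hw1 i j (Nat.zero_le _) (by omega) (Nat.zero_le _) (by omega)
        have hxj : x (j + 1) ≠ x j := fun h => by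
          have := hx (j + 1) j hj (by omega) h
          omega
        have hxi : x (j + 1) ≠ x i := fun h => by
          have := hx (j + 1) i hj (by omega) h
          omega
        have e1 : ρ (Equiv.swap (x i) (x (j + 1))) w =
            ρ s (ρ (Equiv.swap (x j) (x (j + 1))) w) := by
          rw [conj_swap, hsw, hs, Equiv.swap_apply_right, Equiv.swap_apply_of_ne_of_ne hxi hxj]
        have e2 : ‖w - ρ (Equiv.swap (x i) (x (j + 1))) w‖ =
            ‖w - ρ (Equiv.swap (x j) (x (j + 1))) w‖ := by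
          rw [e1]
          nth_rewrite 1 [← hsw]
          rw [← map_sub, hρ]
        have e3 : ‖w - ρ (Equiv.swap (x j) (x (j + 1))) w‖ ≤ 2 * e + d := by
          have e4 : w - ρ (Equiv.swap (x j) (x (j + 1))) w = (w - v) +
              (v - ρ (Equiv.swap (x j) (x (j + 1))) v) +
              ρ (Equiv.swap (x j) (x (j + 1))) (v - w) := by
            rw [map_sub]
            abel
          rw [e4]
          refine (norm_add₃_le).trans ?_
          rw [hρ, norm_sub_rev w v]
          linarith
        calc ‖v - ρ (Equiv.swap (x i) (x (j + 1))) w‖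
            = ‖(v - w) + (w - ρ (Equiv.swap (x i) (x (j + 1))) w)‖ := by
              congr 1
              abel
          _ ≤ e + (2 * e + d) := (norm_add_le _ _).trans (by
              rw [e2]
              exact add_le_add le_rfl e3)
          _ = 3 * e + d := by ring
      have he0 : 0 ≤ e := norm_nonneg _
      have hd0 : 0 ≤ d := norm_nonneg _
      have e5 : ((j : ℝ) + 2) • (v - ((j : ℝ) + 2)⁻¹ • Up ρ x (j + 1) w) = (v - w) +
          ∑ i ∈ range (j + 1), (v - ρ (Equiv.swap (x i) (x (j + 1))) w) := by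
        rw [smul_sub, smul_smul, mul_inv_cancel₀ hpos.ne', one_smul, Finset.sum_sub_distrib,
          Finset.sum_const, card_range]
        unfold Up
        have : ((j : ℝ) + 2) • v = v + (j + 1) • v := by
          rw [add_smul, ← Nat.cast_smul_eq_nsmul ℝ (j + 1) v]
          push_cast
          rw [add_smul, one_smul, two_smul]
          abel
        rw [this]
        abel
      have e6 : ((j : ℝ) + 2) * ‖v - ((j : ℝ) + 2)⁻¹ • Up ρ x (j + 1) w‖ ≤
          ((j : ℝ) + 2) * (3 * e + d) := by
        have : ‖((j : ℝ) + 2) • (v - ((j : ℝ) + 2)⁻¹ • Up ρ x (j + 1) w)‖ =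
            ((j : ℝ) + 2) * ‖v - ((j : ℝ) + 2)⁻¹ • Up ρ x (j + 1) w‖ := by
          rw [norm_smul, Real.norm_of_nonneg hpos.le]
        rw [← this, e5]
        refine (norm_add_le _ _).trans ?_
        have e7 : ‖∑ i ∈ range (j + 1), (v - ρ (Equiv.swap (x i) (x (j + 1))) w)‖ ≤
            ((j : ℝ) + 1) * (3 * e + d) := by
          refine (norm_sum_le_of_le _ hmain).trans (le_of_eq ?_)
          rw [Finset.sum_const, card_range, nsmul_eq_mul]
          push_cast
          ring
        have e8 : ‖v - w‖ ≤ 3 * e + d := by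
          rw [← he]
          linarith
        linarith
      have e9 := le_of_mul_le_mul_left e6 hpos
      refine e9.trans ?_
      rw [Finset.sum_range_succ, mul_add]
      have h3 : (1 : ℝ) ≤ 3 ^ (j + 1 + 1) := one_le_pow₀ (by norm_num)
      have h4 : 3 * e ≤ 3 ^ (j + 1 + 1) * ∑ i ∈ range j,
          ‖v - ρ (Equiv.swap (x i) (x (i + 1))) v‖ := by
        calc 3 * e ≤ 3 * (3 ^ (j + 1) * ∑ i ∈ range j,
              ‖v - ρ (Equiv.swap (x i) (x (i + 1))) v‖) :=
              mul_le_mul_of_nonneg_left hw3 (by norm_num)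
          _ = _ := by ring
      have h5 : d ≤ 3 ^ (j + 1 + 1) * d := le_mul_of_one_le_left hd0 h3
      linarith

theorem sym_thm (hUIN : UINStmt) : SYMStmt := by
  intro α V _ _ _ ρ x a n v hρ hx hn
  obtain ⟨v', h1, h2, h3⟩ := step hUIN ρ hρ (fun i => x (a + i)) n
    (fun i j hi hj h => by
      have := hx (a + i) (a + j) (by omega) (by omega) h
      omega) v (n - 1) (by omega)
  rw [Nat.sub_add_cancel hn] at h1 h3
  refine ⟨v', ?_, ?_, ?_⟩
  · intro i j hi1 hi2 hj1 hj2
    have := h1 (i - a) (j - a) (Nat.zero_le _) (by omega) (Nat.zero_le _) (by omega)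
    simpa only [Nat.add_sub_cancel' hi1, Nat.add_sub_cancel' hj1] using this
  · intro σ hσ hσv
    exact h2 σ (fun i hi => hσ (a + i) (by omega) (by omega)) hσv
  · rw [Finset.sum_Ico_eq_sum_range]
    have : a + n - 1 - a = n - 1 := by omega
    rw [this]
    exact h3

end Pool.Agent.H41.KC.SYM
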